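import Pool.Agent.Helper8.KT.Sheet
import Pool.Agent.Helper94.CZ.Smooth1

/-! Row NOI of sheet KT (MP_3a8adc_an): the infinite product of small bumps. -/

set_option autoImplicit false

open scoped ContDiff
open Set Filter Topology MeasureTheory

namespace Pool.Agent.Helper85.KT

open Pool.Agent.Helper94.CZ (law law_ae law_prob contDiff_average)

/-- restriction to the first coordinates -/
def noiR (n : ℕ) (t : ℕ → ℝ) : Fin (n + 1) → ℝ := fun i => t i

theorem noiR_cont (n : ℕ) : Continuous (noiR n) :=
  continuous_pi fun i => continuous_apply (i : ℕ)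

theorem noi_map {η : ℝ} (hη : 0 < η) (n : ℕ) :
    (Measure.infinitePi (fun _ : ℕ => law η hη)).map (noiR n) =
      Measure.pi (fun _ : Fin (n + 1) => law η hη) := by
  symm
  refine Measure.pi_eq fun s hs => ?_
  rw [Measure.map_apply (noiR_cont n).measurable (MeasurableSet.univ_pi hs)]
  have e : (noiR n) ⁻¹' (univ.pi s) = Set.pi (↑(Finset.range (n + 1)) : Set ℕ)
      (fun j => if h : j < n + 1 then s ⟨j, h⟩ else univ) := by
    ext t
    constructor
    · intro h j hj
      have hj' : j < n + 1 := by simpa using hj
      show t j ∈ (if h : j < n + 1 then s ⟨j, h⟩ else univ)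
      rw [dif_pos hj']
      exact h ⟨j, hj'⟩ (mem_univ _)
    · intro h i _
      have h2 := h i (Finset.mem_coe.2 (Finset.mem_range.2 i.2))
      change t i ∈ (if h : (i : ℕ) < n + 1 then s ⟨i, h⟩ else univ) at h2
      rw [dif_pos i.2] at h2
      exact h2
  rw [e, Measure.infinitePi_pi]
  · rw [Finset.prod_range]
    refine Finset.prod_congr rfl fun i _ => ?_
    rw [dif_pos i.2]
  · intro j hj
    by_cases h : j < n + 1
    · rw [dif_pos h]; exact hs _
    · rw [dif_neg h]; exact MeasurableSet.univ

theorem stNOI : Pool.Agent.Helper8.KT.ST_NOI := by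
  intro η hη
  refine ⟨Measure.infinitePi (fun _ : ℕ => law η hη), inferInstance, ?_, ?_⟩
  · rw [ae_all_iff]
    intro j
    exact (measurePreserving_eval_infinitePi (fun _ : ℕ => law η hη) j).quasiMeasurePreserving.ae
      (law_ae hη)
  · intro n g hg
    have hae : ∀ᵐ t ∂(Measure.infinitePi (fun _ : ℕ => law η hη)), ∀ j, |t j| ≤ η := by
      rw [ae_all_iff]
      intro j
      exact (measurePreserving_eval_infinitePi
        (fun _ : ℕ => law η hη) j).quasiMeasurePreserving.ae (law_ae hη)
    refine ⟨fun a => ?_, ?_⟩
    · have hc : Continuous (fun t : ℕ → ℝ => g (fun i => a i + t i)) :=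
        hg.comp (continuous_pi fun i => continuous_const.add (continuous_apply (i : ℕ)))
      obtain ⟨C, hC⟩ := (isCompact_closedBall a η).exists_bound_of_continuousOn hg.continuousOn
      refine Integrable.of_bound hc.aestronglyMeasurable C ?_
      filter_upwards [hae] with t ht
      apply hC
      rw [mem_closedBall_iff_norm, pi_norm_le_iff_of_nonneg hη.le]
      intro i
      simpa using ht i
    · have h := contDiff_average (ι := Fin (n + 1)) hη hg
      have e2 : (fun a : Fin (n + 1) → ℝ => ∫ t, g (fun i => a i + t i)
          ∂(Measure.infinitePi (fun _ : ℕ => law η hη))) =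
          fun a => ∫ z, g (a + z) ∂(Measure.pi fun _ : Fin (n + 1) => law η hη) := by
        funext a
        have hgc : Continuous (fun z : Fin (n + 1) → ℝ => g (a + z)) :=
          hg.comp (continuous_const.add continuous_id)
        rw [← noi_map hη n]
        exact (integral_map (f := fun z : Fin (n + 1) → ℝ => g (a + z))
          (noiR_cont n).aemeasurable hgc.aestronglyMeasurable).symm
      rw [e2]
      exact h

end Pool.Agent.Helper85.KT
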