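import Pool.Agent.Helper93.TS.Stmts

/-!
# The cost of recovering the height `R` from `c`, `T0` and `B`
-/

set_option autoImplicit false

namespace Pool.Agent.Helper93.TS

open Pool.Agent.Helper8.Kak

theorem crc_Ex_mono {Ω : Type} [Fintype Ω] {p : Ω → ℝ} (hp : IsProb p) {f g : Ω → ℝ}
    (h : ∀ ω, 0 < p ω → f ω ≤ g ω) : Ex p f ≤ Ex p g := by
  unfold Ex
  refine Finset.sum_le_sum fun ω _ => ?_
  rcases (hp.1 ω).eq_or_lt with h0 | h0
  · rw [← h0, zero_mul, zero_mul]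
  · exact mul_le_mul_of_nonneg_left (h ω h0) h0.le

/-- the slope `N / (b - t)` -/
noncomputable def crc_th {N : ℕ} (b t : Fin (N * N)) : ℝ :=
  (N : ℝ) / (((b : ℕ) : ℝ) - ((t : ℕ) : ℝ))

open scoped Classical in
/-- the bound for the inverse slope -/
noncomputable def crc_D {N : ℕ} (b t : Fin (N * N)) : ℝ :=
  if Jc b = Jc t then (1 / dst (In b) (In t)) ^ 2 else (N : ℝ) * N

theorem crc_N {N : ℕ} (b : Fin (N * N)) : (1 : ℝ) ≤ N := by
  have h : 0 < N := by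
    rcases Nat.eq_zero_or_pos N with h0 | h0
    · subst h0; exact b.elim0
    · exact h0
  exact_mod_cast h

theorem crc_one_le {N : ℕ} (b t : Fin (N * N)) : 1 ≤ crc_D b t := by
  have hN := crc_N b
  unfold crc_D
  split_ifs with h
  · have h1 := Pool.Agent.Helper89.KakGeo.one_le_inv_dst (In b) (In t)
    nlinarith
  · nlinarith

theorem crc_zero {N : ℕ} (b t : Fin (N * N)) (h : crc_th b t = 0) :
    ((N * N : ℕ) : ℝ) ≤ crc_D b t := by
  have hN := crc_N b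
  unfold crc_th at h
  have h1 : ((b : ℕ) : ℝ) - ((t : ℕ) : ℝ) = 0 := by
    rcases div_eq_zero_iff.1 h with h2 | h2
    · linarith
    · exact h2
  have h2 : b = t := by
    refine Fin.ext ?_
    have : ((b : ℕ) : ℝ) = ((t : ℕ) : ℝ) := by linarith
    exact_mod_cast this
  subst h2
  unfold crc_D
  rw [if_pos rfl, Pool.Agent.Helper89.KakGeo.inv_dst_self]
  push_cast
  nlinarith

theorem crc_inv {N : ℕ} (b t : Fin (N * N)) : |1 / crc_th b t| ≤ crc_D b t := by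
  have hN := crc_N b
  have hN0 : (0 : ℝ) < N := by linarith
  have h1 : |1 / crc_th b t| = |((b : ℕ) : ℝ) - ((t : ℕ) : ℝ)| / N := by
    unfold crc_th
    rw [one_div_div, abs_div, abs_of_pos hN0]
  rw [h1]
  have hb := Nat.div_add_mod (b : ℕ) N
  have ht := Nat.div_add_mod (t : ℕ) N
  have hNp : 0 < N := by exact_mod_cast hN0
  have hb2 := Nat.mod_lt (b : ℕ) hNp
  have ht2 := Nat.mod_lt (t : ℕ) hNp
  unfold crc_D
  split_ifs with h
  · have h2 : (b : ℕ) / N = (t : ℕ) / N := by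
      have := congrArg Fin.val h
      exact this
    rw [h2] at hb
    have h3 : |((b : ℕ) : ℝ) - ((t : ℕ) : ℝ)| ≤ N := by
      have e1 : ((b : ℕ) : ℝ) = (N : ℝ) * ((t : ℕ) / N : ℕ) + ((b : ℕ) % N : ℕ) := by
        exact_mod_cast hb.symm
      have e2 : ((t : ℕ) : ℝ) = (N : ℝ) * ((t : ℕ) / N : ℕ) + ((t : ℕ) % N : ℕ) := by
        exact_mod_cast ht.symm
      have e3 : (((b : ℕ) % N : ℕ) : ℝ) ≤ N := by exact_mod_cast hb2.le
      have e4 : (((t : ℕ) % N : ℕ) : ℝ) ≤ N := by exact_mod_cast ht2.le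
      have e5 : (0 : ℝ) ≤ (((b : ℕ) % N : ℕ) : ℝ) := Nat.cast_nonneg _
      have e6 : (0 : ℝ) ≤ (((t : ℕ) % N : ℕ) : ℝ) := Nat.cast_nonneg _
      rw [abs_le]
      constructor
      · linarith
      · linarith
    have h4 : |((b : ℕ) : ℝ) - ((t : ℕ) : ℝ)| / N ≤ 1 := by
      rw [div_le_one hN0]
      exact h3
    have h5 := Pool.Agent.Helper89.KakGeo.one_le_inv_dst (In b) (In t)
    nlinarith
  · have e1 : ((b : ℕ) : ℝ) ≤ (N : ℝ) * N := by exact_mod_cast b.2.le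
    have e2 : ((t : ℕ) : ℝ) ≤ (N : ℝ) * N := by exact_mod_cast t.2.le
    have e3 : (0 : ℝ) ≤ ((b : ℕ) : ℝ) := Nat.cast_nonneg _
    have e4 : (0 : ℝ) ≤ ((t : ℕ) : ℝ) := Nat.cast_nonneg _
    have h3 : |((b : ℕ) : ℝ) - ((t : ℕ) : ℝ)| ≤ (N : ℝ) * N := by
      rw [abs_le]
      constructor
      · linarith
      · linarith
    rw [div_le_iff₀ hN0]
    nlinarith

theorem crc_log {N : ℕ} (b t : Fin (N * N)) (h : Jc b = Jc t) :
    Real.log (crc_D b t) = 2 * nl b t := by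
  unfold crc_D nl ld
  rw [if_pos h, Real.log_pow]
  norm_num

theorem crc_par {N : ℕ} (t r b : Fin (N * N)) :
    ⌊(((((r : ℕ) : ℤ) - ((t : ℕ) : ℤ) : ℤ)) : ℝ) * crc_th b t⌋ = cpar t r b := by
  unfold cpar crc_th
  have e : ((((((r : ℕ) : ℤ) - ((t : ℕ) : ℤ) : ℤ)) : ℝ) * ((N : ℝ) / (((b : ℕ) : ℝ) - ((t : ℕ) : ℝ))))
      = (N : ℝ) * (((r : ℕ) : ℝ) - ((t : ℕ) : ℝ)) / (((b : ℕ) : ℝ) - ((t : ℕ) : ℝ)) := by
    push_cast
    ring
  rw [e]

/-- **cRc** -/
theorem st_cRc (h1 : ST_PRE) : ST_cRc := by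
  intro m N D
  have P := h1 m N D
  have hκ := P.κ0
  have hM : 1 ≤ N * N := Nat.mul_pos D.hN D.hN
  have hkey : D.H {.c, .T0, .B, .R} - D.H {.c, .T0, .B} ≤ 34 * (D.κ + 1) := by
    refine cost_le D.V _ _ VV.R (by decide +kernel) _ fun r hr => ?_
    simp only [Finset.mem_insert, Finset.mem_singleton, forall_eq_or_imp, forall_eq, Dat.V_c,
      Dat.V_T0, Dat.V_B] at hr
    have g0 : CE D.pz (D.V VV.R) r ≤ CE D.pz
        (Setoid.ker (fun y => ((D.T (zR y) : ℕ) : ℤ) - ((D.T (z0 y) : ℕ) : ℤ))) r := by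
      refine CE_mono P.hp fun y y' _ _ g1 g2 => ?_
      rw [Setoid.ker_def] at g1
      rw [Dat.V_R]
      have g3 : ((D.T (zR y) : ℕ) : ℤ) = ((D.T (zR y') : ℕ) : ℤ) := by
        rw [(hr y y' g2).2.1] at g1
        linarith
      exact Fin.ext (by exact_mod_cast g3)
    have g1 := Pool.Agent.Helper89.KakGeo.CE_floor P.hp r
      (fun y => ((D.T (zR y) : ℕ) : ℤ) - ((D.T (z0 y) : ℕ) : ℤ))
      (fun y => crc_th (D.T (zB y)) (D.T (z0 y))) (fun y => crc_D (D.T (zB y)) (D.T (z0 y))) hM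
      (fun y => crc_one_le _ _) (fun y hy => crc_zero _ _ hy) (fun y _ => crc_inv _ _)
      (fun y y' _ _ g => by
        obtain ⟨e1, e2, e3⟩ := hr y y' g
        refine ⟨by rw [e2, e3], ?_⟩
        rw [crc_par, crc_par]
        exact e1)
    have g2 : Ex D.pz (fun y => 2 * up (N * N) (((D.T (zR y) : ℕ) : ℤ) - ((D.T (z0 y) : ℕ) : ℤ)) +
        Real.log (crc_D (D.T (zB y)) (D.T (z0 y)))) ≤
        Ex D.pz (fun y => 2 * nl (D.T (zB y)) (D.T (z0 y)) + 2 * Real.log 2) := by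
      refine crc_Ex_mono P.hp fun y hy => ?_
      rw [crc_log _ _ (P.lk y hy).tB]
      have h6 := Pool.Agent.Helper89.KakGeo.up_sub (D.T (zR y)) (D.T (z0 y))
      linarith
    have g3 : Ex D.pz (fun y => 2 * nl (D.T (zB y)) (D.T (z0 y)) + 2 * Real.log 2)
        = 2 * Ex D.pz (fun y => nl (D.T (zB y)) (D.T (z0 y))) + 2 * Real.log 2 := by
      rw [Ex_add, Ex_smul, Ex_const P.hp]
    rw [g3] at g2
    linarith [P.nlB0, log2_le, log3_le]
  refine hkey.trans ?_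
  exact le_kk hκ le_rfl

end Pool.Agent.Helper93.TS
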